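import Pool.Agent.H40.Tr.Riesz
import Pool.Agent.H40.Tr.Graph

/-!
TASEP on a tree under a flow rule, intensity `λ = ρ q` with `ρ > 1 / 2`: the limit law dominates
`ν_{1/2}`, every edge carries the maximal current, and the densities tend to `1 / 2` on average
over the levels, weighted by the flow.
-/

namespace Pool.Agent.Results.MP_35cfec_pr.HighIntensityLimit

open Pool.Agent.H40.Tr MeasureTheory Filter Topology
open scoped NNReal

/-- On every infinite locally finite tree with rates satisfying a flow rule of strength `q`, and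
`λ = ρ q` with `ρ > 1/2`: the limit `π_λ` of `ν_0 S_t` exists; `∫ f dν_{1/2} ≤ ∫ f dπ_λ` for every
increasing continuous `f`; `π_λ(η(x) = 1, η(y) = 0) = 1/4` for every edge `(x, y)`; and the
flow-weighted mean of `|π_λ(η(y) = 1) - 1/2|` over level `n` tends to zero. -/
theorem result {V : Type*} (G : SimpleGraph V) (o : V) (r : V → V → ℝ) (q ρ : ℝ)
    (hG : FlowTree G o r q) (h : 1 / 2 < ρ) :
    ∃ S : ℝ≥0 → C(V → Bool, ℝ) →L[ℝ] C(V → Bool, ℝ),
      (IsTasep G o r (ρ * q) S ∧ ∀ S', IsTasep G o r (ρ * q) S' → S' = S) ∧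
      ∃ π : Measure (V → Bool), IsProbabilityMeasure π ∧ LimitLaw S π ∧
        (∀ f : C(V → Bool, ℝ), Monotone f → ∫ η, f η ∂(nu V (1 / 2)) ≤ ∫ η, f η ∂π) ∧
        (∀ x y, ChildOf G o x y → π.real {η | η x = true ∧ η y = false} = 1 / 4) ∧
        Tendsto (fun n : ℕ => ∑ᶠ e ∈ {e : V × V | ChildOf G o e.1 e.2 ∧ G.dist o e.2 = n},
          r e.1 e.2 * |π.real {η | η e.2 = true} - 1 / 2|) atTop (𝓝 0) := by
  classical
  obtain ⟨T, hTo, hTq, hlev, hch, hR, hiff⟩ := graphStmt V G o r q hG
  subst hTq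
  have hq := T.q_pos
  have hl0 : T.q / 2 ≤ ρ * T.q := by nlinarith
  have hl : 0 < ρ * T.q := by linarith
  have hcount : Countable V := T.countable
  obtain ⟨S, hS⟩ := sgExistsStmt V T (ρ * T.q) hl
  obtain ⟨E, hE, hSt, hlim, _⟩ := limStmt' V T (ρ * T.q) hl S hS
  obtain ⟨π, hπ, hint⟩ := exists_measure E hE
  obtain ⟨hdom, hlow, hedge, _, hav⟩ := mainB V T (ρ * T.q) hl0 S hS E hlim
  have hocc : ∀ x, π.real {η | η x = true} = E (occ x) := by
    intro x
    rw [← hint, ← integral_indicator_one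
      (measurableSet_eq_fun (measurable_pi_apply x) measurable_const)]
    congr 1
    ext η
    simp only [Set.indicator_apply, occ_apply, Pi.one_apply]
    rfl
  refine ⟨S, ⟨(hiff _ _).2 hS, fun S' hS' => ?_⟩, π, hπ, ?_, ?_, ?_, ?_⟩
  · funext t
    ext1 f
    exact FT.Sg_unique (denseT T) hl.le ((hiff _ _).1 hS') hS t f
  · intro f
    rw [hint]
    exact hlim f
  · intro f hf
    rw [hint]
    exact hdom f hf
  · intro x y hxy
    obtain ⟨h1, h2⟩ := (T.mem_ch x y).1 ((hch x y).1 hxy)
    have h3 := hedge y h1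
    rw [h2, ← hint] at h3
    have hm : MeasurableSet {η : V → Bool | η x = true ∧ η y = false} :=
      (measurableSet_eq_fun (measurable_pi_apply x) measurable_const).inter
        (measurableSet_eq_fun (measurable_pi_apply y) measurable_const)
    rw [← h3, ← integral_indicator_one hm]
    congr 1
    ext η
    have hmem : η ∈ {η : V → Bool | η x = true ∧ η y = false} ↔
      (η x = true ∧ η y = false) := Iff.rfl
    simp only [Set.indicator_apply, occ_apply, Pi.one_apply, ContinuousMap.mul_apply,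
      ContinuousMap.sub_apply, ContinuousMap.one_apply, hmem]
    cases hx : η x <;> cases hy : η y <;> simp
  · refine hav.congr' ?_
    filter_upwards [eventually_ge_atTop 1] with n hn
    have hset : {e : V × V | ChildOf G o e.1 e.2 ∧ G.dist o e.2 = n} =
        ↑((T.lv n).image fun y => (T.par y, y)) := by
      ext ⟨x, y⟩
      simp only [Set.mem_ofPred_eq, Finset.coe_image, Set.mem_image, Finset.mem_coe, T.mem_lv,
        Prod.mk.injEq]
      constructor
      · rintro ⟨h1, h2⟩
        refine ⟨y, by rw [hlev]; exact h2, ?_, rfl⟩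
        exact ((T.mem_ch x y).1 ((hch x y).1 h1)).2
      · rintro ⟨z, h1, h2, rfl⟩
        rw [hlev] at h1
        refine ⟨(hch x z).2 ((T.mem_ch x z).2 ⟨?_, h2⟩), h1⟩
        rintro rfl
        rw [hTo, SimpleGraph.dist_self] at h1
        omega
    have hsum : (∑ᶠ e ∈ {e : V × V | ChildOf G o e.1 e.2 ∧ G.dist o e.2 = n},
        r e.1 e.2 * |π.real {η | η e.2 = true} - 1 / 2|) =
        ∑ y ∈ T.lv n, r (T.par y) y * |π.real {η | η y = true} - 1 / 2| := by
      rw [hset, finsum_mem_coe_finset, Finset.sum_image (fun a _ b _ hab => (Prod.mk.inj hab).2)]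
    refine Eq.trans ?_ hsum.symm
    refine Finset.sum_congr rfl fun y hy => ?_
    have hy' := T.mem_lv.1 hy
    have hyo : y ≠ T.o := by
      rintro rfl
      rw [T.lev_o] at hy'
      omega
    have hc : ChildOf G o (T.par y) y := (hch _ _).2 ((T.mem_ch _ _).2 ⟨hyo, rfl⟩)
    rw [hocc, hR _ _ hc]

end Pool.Agent.Results.MP_35cfec_pr.HighIntensityLimit
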