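import Pool.Agent.H40.Tr.MainA
import Pool.Agent.H40.Tr.Graph

/-!
TASEP on a tree under a flow rule: for intensity `ρ q` with `ρ ≤ 1 / 2`, the law started from the
empty configuration converges to the Bernoulli product measure `ν_ρ`.
-/

namespace Pool.Agent.Results.MP_35cfec_pr.LowIntensityLimit

open Pool.Agent.H40.Tr
open scoped NNReal

/-- Part (a): on every infinite locally finite tree with rates satisfying a flow rule of strength
`q`, and `λ = ρ q` with `0 < ρ ≤ 1/2`, the TASEP semigroup `S_t` exists, is unique, and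
`lim ν_0 S_t = ν_ρ` in the weak topology. -/
theorem result {V : Type*} (G : SimpleGraph V) (o : V) (r : V → V → ℝ) (q ρ : ℝ)
    (hG : FlowTree G o r q) (h0 : 0 < ρ) (h1 : ρ ≤ 1 / 2) :
    ∃ S : ℝ≥0 → C(V → Bool, ℝ) →L[ℝ] C(V → Bool, ℝ),
      (IsTasep G o r (ρ * q) S ∧ ∀ S', IsTasep G o r (ρ * q) S' → S' = S) ∧
      LimitLaw S (nu V ρ) := by
  classical
  obtain ⟨T, hTo, hTq, _, _, _, hiff⟩ := graphStmt V G o r q hG
  subst hTq
  have hl : 0 < ρ * T.q := mul_pos h0 T.q_pos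
  obtain ⟨S, hS⟩ := sgExistsStmt V T (ρ * T.q) hl
  refine ⟨S, ⟨(hiff _ _).2 hS, fun S' hS' => ?_⟩, ?_⟩
  · funext t
    ext1 f
    exact FT.Sg_unique (denseT T) hl.le ((hiff _ _).1 hS') hS t f
  · intro f
    exact mainA V T ρ h0 h1 S hS f

end Pool.Agent.Results.MP_35cfec_pr.LowIntensityLimit
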